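import Pool.Agent.Helper16.PL.St

/-! PL: decomposition of a pair of lists at a minimum of the displacement -/

open Finset

namespace Pool.PLH53

open Pool.HW Pool.PL

variable {α : Type} [DecidableEq α]

theorem exists_min (S : Sys α) (L L' : List α) :
    ∃ A A' : List α, A <+: L ∧ A' <+: L' ∧ S.ht A = S.ht A' ∧
      ∀ K K', K <+: L → K' <+: L' → S.ht K = S.ht K' → S.xx A + S.xx A' ≤ S.xx K + S.xx K' := by
  classical
  let F : Finset (List α × List α) :=
    (L.inits.toFinset ×ˢ L'.inits.toFinset).filter fun q => S.ht q.1 = S.ht q.2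
  have hF : ∀ q : List α × List α, q ∈ F ↔ (q.1 <+: L ∧ q.2 <+: L') ∧ S.ht q.1 = S.ht q.2 := by
    intro q
    simp only [F, mem_filter, mem_product, List.mem_toFinset, List.mem_inits]
  have hne : F.Nonempty := ⟨([], []), (hF _).2 ⟨⟨List.nil_prefix, List.nil_prefix⟩, rfl⟩⟩
  obtain ⟨q, hq, hmin⟩ := F.exists_min_image (fun q => S.xx q.1 + S.xx q.2) hne
  have h1 := (hF q).1 hq
  exact ⟨q.1, q.2, h1.1.1, h1.1.2, h1.2, fun K K' hK hK' hh =>
    hmin (K, K') ((hF _).2 ⟨⟨hK, hK'⟩, hh⟩)⟩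

omit [DecidableEq α] in
theorem prefix_rev {S : Sys α} {B K : List α} (h : K <+: (B.reverse).map S.σ) :
    ∃ J0 J, B = J0 ++ J ∧ S.ht K = S.ht J ∧ S.xx K = - S.xx J := by
  obtain ⟨t, ht⟩ := h
  refine ⟨(t.reverse).map S.σ, (K.reverse).map S.σ, ?_, ?_, ?_⟩
  · have h1 : ((K ++ t).reverse).map S.σ = B := by
      rw [ht, ← List.map_reverse, List.reverse_reverse, List.map_map]
      have : S.σ ∘ S.σ = id := by
        funext p
        exact S.σ_σ p
      rw [this, List.map_id]
    rw [← h1, List.reverse_append, List.map_append]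
  · simp
  · simp

omit [DecidableEq α] in
theorem rev_inj {S : Sys α} {B C : List α} (h : (B.reverse).map S.σ = (C.reverse).map S.σ) :
    B = C := by
  have hinj : Function.Injective S.σ := by
    intro a b hab
    rw [← S.σ_σ a, hab, S.σ_σ]
  exact List.reverse_injective (List.map_injective_iff.2 hinj h)

theorem pers2 : StPers2 := by
  intro α _ S m
  classical
  -- the sums over pairs
  let T : Finset (List α × List α) := (range (m + 1)).biUnion fun i => S.LH i ×ˢ S.LH i
  let A : Finset (List α × List α) :=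
    (range (m + 1)).biUnion fun i => (S.LH i ×ˢ S.LH i).filter fun q => S.Amin q
  have hdis : ∀ i j : ℕ, i ≠ j → Disjoint (S.LH i ×ˢ S.LH i) (S.LH j ×ˢ S.LH j) := by
    intro i j hij
    rw [Finset.disjoint_left]
    intro q h1 h2
    exact Finset.disjoint_left.1 (S.LH_disj hij) (mem_product.1 h1).1 (mem_product.1 h2).1
  have hT : ∑ i ∈ range (m + 1), S.u i ^ 2 = ∑ q ∈ T, S.wt q.1 * S.wt q.2 := by
    rw [sum_biUnion]
    · refine sum_congr rfl fun i _ => ?_
      rw [sq, Sys.u, sum_mul_sum, sum_product]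
    · intro i _ j _ hij
      exact hdis i j hij
  have hA : S.am m = ∑ q ∈ A, S.wt q.1 * S.wt q.2 := by
    rw [sum_biUnion]
    · unfold Sys.am
      refine sum_congr rfl fun i _ => ?_
      refine sum_congr ?_ fun _ _ => rfl
      ext q
      simp only [mem_filter]
    · intro i _ j _ hij
      exact Finset.disjoint_of_subset_left (filter_subset _ _)
        (Finset.disjoint_of_subset_right (filter_subset _ _) (hdis i j hij))
  have hmT : ∀ q : List α × List α, q ∈ T ↔
      (∀ p ∈ q.1, p ∈ S.P) ∧ (∀ p ∈ q.2, p ∈ S.P) ∧ S.ht q.1 = S.ht q.2 ∧ S.ht q.1 ≤ m := by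
    intro q
    simp only [T, mem_biUnion, mem_range, mem_product, Sys.mem_LH]
    constructor
    · rintro ⟨i, hi, ⟨h1, h2⟩, h3, h4⟩
      exact ⟨h1, h3, h2.trans h4.symm, by omega⟩
    · rintro ⟨h1, h2, h3, h4⟩
      exact ⟨S.ht q.1, by omega, ⟨h1, rfl⟩, h2, h3.symm⟩
  have hmA : ∀ q : List α × List α, q ∈ A ↔
      (∀ p ∈ q.1, p ∈ S.P) ∧ (∀ p ∈ q.2, p ∈ S.P) ∧ S.ht q.1 = S.ht q.2 ∧ S.ht q.1 ≤ m ∧
        S.Amin q := by
    intro q
    simp only [A, mem_biUnion, mem_range, mem_filter, mem_product, Sys.mem_LH]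
    constructor
    · rintro ⟨i, hi, ⟨⟨h1, h2⟩, h3, h4⟩, h5⟩
      exact ⟨h1, h3, h2.trans h4.symm, by omega, h5⟩
    · rintro ⟨h1, h2, h3, h4, h5⟩
      exact ⟨S.ht q.1, by omega, ⟨⟨h1, rfl⟩, h2, h3.symm⟩, h5⟩
  -- the decomposition
  have key : ∀ q : List α × List α, ∃ r : (List α × List α) × (List α × List α),
      q.1 = r.1.1 ++ r.2.1 ∧ q.2 = r.1.2 ++ r.2.2 ∧ S.ht r.1.1 = S.ht r.1.2 ∧
      ∀ K K', K <+: q.1 → K' <+: q.2 → S.ht K = S.ht K' →
        S.xx r.1.1 + S.xx r.1.2 ≤ S.xx K + S.xx K' := by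
    intro q
    obtain ⟨K, K', ⟨B, hB⟩, ⟨B', hB'⟩, h3, h4⟩ := exists_min S q.1 q.2
    exact ⟨((K, K'), (B, B')), hB.symm, hB'.symm, h3, h4⟩
  choose r hr using key
  let f : List α × List α → (List α × List α) × (List α × List α) := fun q =>
    ((r q).1, (((r q).2.1.reverse).map S.σ, ((r q).2.2.reverse).map S.σ))
  have hf : ∀ q ∈ T, f q ∈ A ×ˢ A := by
    intro q hq
    obtain ⟨h1, h2, h3, h4⟩ := (hmT q).1 hq
    obtain ⟨e1, e2, e3, e4⟩ := hr q
    have hh1 : S.ht q.1 = S.ht (r q).1.1 + S.ht (r q).2.1 := by rw [← S.ht_append, ← e1]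
    have hh2 : S.ht q.2 = S.ht (r q).1.2 + S.ht (r q).2.2 := by rw [← S.ht_append, ← e2]
    rw [mem_product]
    constructor
    · refine (hmA _).2 ⟨?_, ?_, e3, ?_, ?_⟩
      · intro p hp
        exact h1 p (by rw [e1]; exact List.mem_append_left _ hp)
      · intro p hp
        exact h2 p (by rw [e2]; exact List.mem_append_left _ hp)
      · show S.ht (r q).1.1 ≤ m
        omega
      · intro K K' hK hK' hh
        refine e4 K K' (hK.trans ?_) (hK'.trans ?_) hh
        · exact ⟨_, e1.symm⟩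
        · exact ⟨_, e2.symm⟩
    · refine (hmA _).2 ⟨?_, ?_, ?_, ?_, ?_⟩
      · intro p hp
        simp only [f, List.mem_map, List.mem_reverse] at hp
        obtain ⟨b, hb, rfl⟩ := hp
        exact S.σ_mem b (h1 b (by rw [e1]; exact List.mem_append_right _ hb))
      · intro p hp
        simp only [f, List.mem_map, List.mem_reverse] at hp
        obtain ⟨b, hb, rfl⟩ := hp
        exact S.σ_mem b (h2 b (by rw [e2]; exact List.mem_append_right _ hb))
      · simp only [f, Sys.ht_map_σ, Sys.ht_reverse]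
        omega
      · simp only [f, Sys.ht_map_σ, Sys.ht_reverse]
        omega
      · intro K K' hK hK' hh
        obtain ⟨J0, J, hJ1, hJ2, hJ3⟩ := prefix_rev hK
        obtain ⟨J0', J', hJ1', hJ2', hJ3'⟩ := prefix_rev hK'
        simp only [f, Sys.xx_map_σ, Sys.xx_reverse]
        have c1 : S.ht (r q).2.1 = S.ht J0 + S.ht J := by rw [hJ1, S.ht_append]
        have c2 : S.ht (r q).2.2 = S.ht J0' + S.ht J' := by rw [hJ1', S.ht_append]
        have d1 : S.xx (r q).2.1 = S.xx J0 + S.xx J := by rw [hJ1, S.xx_append]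
        have d2 : S.xx (r q).2.2 = S.xx J0' + S.xx J' := by rw [hJ1', S.xx_append]
        have h5 := e4 ((r q).1.1 ++ J0) ((r q).1.2 ++ J0') ?_ ?_ ?_
        · rw [S.xx_append, S.xx_append] at h5
          omega
        · exact ⟨J, by rw [List.append_assoc, ← hJ1, ← e1]⟩
        · exact ⟨J', by rw [List.append_assoc, ← hJ1', ← e2]⟩
        · rw [S.ht_append, S.ht_append]
          omega
  have hinj : Set.InjOn f T := by
    intro q _ q' _ hqq
    obtain ⟨e1, e2, -, -⟩ := hr q
    obtain ⟨e1', e2', -, -⟩ := hr q'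
    have a1 : (r q).1 = (r q').1 := congrArg (fun z => z.1) hqq
    have a2 : ((r q).2.1.reverse).map S.σ = ((r q').2.1.reverse).map S.σ :=
      congrArg (fun z => z.2.1) hqq
    have a3 : ((r q).2.2.reverse).map S.σ = ((r q').2.2.reverse).map S.σ :=
      congrArg (fun z => z.2.2) hqq
    have b2 := rev_inj a2
    have b3 := rev_inj a3
    refine Prod.ext ?_ ?_
    · rw [e1, e1', a1, b2]
    · rw [e2, e2', a1, b3]
  let G : (List α × List α) × (List α × List α) → ℝ := fun z =>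
    (S.wt z.1.1 * S.wt z.1.2) * (S.wt z.2.1 * S.wt z.2.2)
  have hG : ∀ q ∈ T, S.wt q.1 * S.wt q.2 = G (f q) := by
    intro q _
    obtain ⟨e1, e2, -, -⟩ := hr q
    simp only [G, f, Sys.wt_map_σ, Sys.wt_reverse]
    conv_lhs => rw [e1, e2, S.wt_append, S.wt_append]
    ring
  rw [hT, hA, sq, sum_mul_sum, ← sum_product', sum_congr rfl hG, ← sum_image (f := G) hinj]
  refine sum_le_sum_of_subset_of_nonneg ?_ ?_
  · intro z hz
    obtain ⟨q, hq, rfl⟩ := mem_image.1 hz
    exact hf q hq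
  · intro z _ _
    exact mul_nonneg (mul_nonneg (S.wt_nonneg _) (S.wt_nonneg _))
      (mul_nonneg (S.wt_nonneg _) (S.wt_nonneg _))

end Pool.PLH53
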